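import Mathlib

open Set Filter Topology

namespace Pool.Agent.Results.MP_1775bc_an.MarkusYamabe

variable {E : Type} [NormedAddCommGroup E] [NormedSpace ℝ E]

/-- `ω` is piecewise continuous on `[0,∞)`: finitely many discontinuities in each bounded
interval, and one-sided limits everywhere. -/
def PC (ω : ℝ → E) : Prop :=
  (∀ b : ℝ, {t : ℝ | t ∈ Icc 0 b ∧ ¬ ContinuousWithinAt ω (Ici 0) t}.Finite) ∧
  (∀ t : ℝ, 0 ≤ t → ∃ l, Tendsto ω (𝓝[>] t) (𝓝 l)) ∧
  (∀ t : ℝ, 0 < t → ∃ l, Tendsto ω (𝓝[<] t) (𝓝 l))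

/-- `T` is the evolution operator of `x' = A(t) x` on `[0,∞)`. -/
def IsEvol (A : ℝ → E →L[ℝ] E) (T : ℝ → ℝ → E →L[ℝ] E) : Prop :=
  (∀ s : ℝ, 0 ≤ s → T s s = 1) ∧
  (∀ t s r : ℝ, 0 ≤ t → 0 ≤ s → 0 ≤ r → T t s * T s r = T t r) ∧
  ∀ s : ℝ, 0 ≤ s → ContinuousOn (fun t => T t s) (Ici 0) ∧
    ∀ t : ℝ, 0 < t → ContinuousAt A t → HasDerivAt (fun t => T t s) (A t * T t s) t

/-- `x' = A(t) x` has a nonuniform exponential dichotomy on `[0,∞)` with `P ≡ I`. -/
def Contracting (A : ℝ → E →L[ℝ] E) : Prop :=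
  ∃ T, IsEvol A T ∧ ∃ K γ ε : ℝ, 1 ≤ K ∧ 0 ≤ ε ∧ ε < γ ∧
    ∀ t s : ℝ, 0 ≤ s → s ≤ t → ‖T t s‖ ≤ K * Real.exp (-γ * (t - s) + ε * s)

/-- `x` solves `x' = f(t,x)` on `[t₀,∞)`. -/
def IsSol (f : ℝ → E → E) (t₀ : ℝ) (x : ℝ → E) : Prop :=
  ∀ t : ℝ, t₀ ≤ t → HasDerivWithinAt x (f t (x t)) (Ici t₀) t

/-- (G1) `f` is continuous, `C¹` in `x`, and forward solutions are global. -/
def G1 (f : ℝ → E → E) : Prop :=
  ContinuousOn (fun p : ℝ × E => f p.1 p.2) (Ici 0 ×ˢ univ) ∧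
  (∀ t : ℝ, 0 ≤ t → Differentiable ℝ (f t)) ∧
  ContinuousOn (fun p : ℝ × E => fderiv ℝ (f p.1) p.2) (Ici 0 ×ˢ univ) ∧
  ∀ t₀ : ℝ, 0 ≤ t₀ → ∀ x₀ : E, ∃ x, IsSol f t₀ x ∧ x t₀ = x₀

/-- (G3) -/
def G3 (f : ℝ → E → E) : Prop :=
  ∀ ω : ℝ → E, PC ω → Contracting (fun t => fderiv ℝ (f t) (ω t))

/-- Global nonuniform asymptotic stability of the origin. -/
def GNUAS (f : ℝ → E → E) : Prop :=
  ∀ t₀ : ℝ, 0 ≤ t₀ →
    (∀ η : ℝ, 0 < η → ∃ δ : ℝ, 0 < δ ∧
      ∀ x, IsSol f t₀ x → ‖x t₀‖ < δ → ∀ t : ℝ, t₀ ≤ t → ‖x t‖ < η) ∧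
    ∀ x, IsSol f t₀ x → Tendsto x atTop (𝓝 0)

def Step (ω : ℝ → E) : Prop :=
  ∀ t : ℝ, (∀ᶠ r in 𝓝[>] t, ω r = ω t) ∧ ∃ l, ∀ᶠ r in 𝓝[<] t, ω r = l

omit [NormedSpace ℝ E] in
lemma Step.evR {ω : ℝ → E} (h : Step ω) (t : ℝ) : ∀ᶠ r in 𝓝[>] t, ContinuousAt ω r := by
  have := (eventually_nhdsWithin_eventually_nhds_iff_of_isOpen (isOpen_Ioi (a := t))).2 (h t).1
  filter_upwards [this] with r hr
  exact continuousAt_const.congr (EventuallyEq.symm hr)

omit [NormedSpace ℝ E] in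
lemma Step.evL {ω : ℝ → E} (h : Step ω) (t : ℝ) : ∀ᶠ r in 𝓝[<] t, ContinuousAt ω r := by
  obtain ⟨l, hl⟩ := (h t).2
  have := (eventually_nhdsWithin_eventually_nhds_iff_of_isOpen (isOpen_Iio (a := t))).2 hl
  filter_upwards [this] with r hr
  exact continuousAt_const.congr (EventuallyEq.symm hr)

omit [NormedSpace ℝ E] in
lemma Step.pc {ω : ℝ → E} (h : Step ω) : PC ω := by
  refine ⟨fun b => ?_, fun t _ => ⟨ω t, tendsto_const_nhds.congr' (EventuallyEq.symm (h t).1)⟩,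
    fun t _ => ?_⟩
  · have hU : ∀ t : ℝ, {r | r ≠ t → ContinuousAt ω r} ∈ 𝓝 t := by
      intro t
      have : ∀ᶠ r in 𝓝[≠] t, ContinuousAt ω r := by
        rw [← nhdsLT_sup_nhdsGT, eventually_sup]
        exact ⟨h.evL t, h.evR t⟩
      exact eventually_nhdsWithin_iff.1 this
    obtain ⟨s, -, hs⟩ := (isCompact_Icc (a := (0 : ℝ)) (b := b)).elim_nhds_subcover _
      (fun t _ => hU t)
    refine s.finite_toSet.subset ?_
    rintro t ⟨ht, hn⟩
    obtain ⟨u, hu, hu'⟩ := mem_iUnion₂.1 (hs ht)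
    by_cases e : t = u
    · rw [e]; exact hu
    · exact absurd (hu' e).continuousWithinAt hn
  · obtain ⟨l, hl⟩ := (h t).2
    exact ⟨l, tendsto_const_nhds.congr' (EventuallyEq.symm hl)⟩

lemma rderiv {J : ℝ → E → E →L[ℝ] E}
    (hJ : ContinuousOn (fun p : ℝ × E => J p.1 p.2) (Ici 0 ×ˢ univ)) {ω : ℝ → E} (h : Step ω)
    {T : ℝ → ℝ → E →L[ℝ] E} (hT : IsEvol (fun t => J t (ω t)) T) (s : ℝ) (hs : 0 ≤ s) (t : ℝ)
    (ht : 0 ≤ t) : HasDerivWithinAt (fun t => T t s) (J t (ω t) * T t s) (Ici t) t := by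
  obtain ⟨hc, hd⟩ := hT.2.2 s hs
  have hev : ∀ᶠ r in 𝓝[>] t, HasDerivAt (fun t => T t s) (J r (ω r) * T r s) r := by
    filter_upwards [h.evR t, self_mem_nhdsWithin] with r hr hr'
    have hr0 : 0 < r := lt_of_le_of_lt ht hr'
    apply hd r hr0
    have h1 : ContinuousAt (fun p : ℝ × E => J p.1 p.2) (r, ω r) :=
      hJ.continuousAt (prod_mem_nhds (Ici_mem_nhds hr0) univ_mem)
    exact ContinuousAt.comp (f := fun r => (r, ω r)) h1 (continuousAt_id.prodMk hr)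
  have hcw : ContinuousWithinAt (fun t => T t s) (Ioi t) t :=
    (hc t ht).mono (fun r hr => le_trans ht (le_of_lt hr))
  apply hasDerivWithinAt_Ici_of_tendsto_deriv
    (s := {r | t < r ∧ HasDerivAt (fun t => T t s) (J r (ω r) * T r s) r})
  · intro r hr; exact hr.2.differentiableAt.differentiableWithinAt
  · exact hcw.mono (fun r hr => hr.1)
  · filter_upwards [hev, self_mem_nhdsWithin] with r h1 h2 using ⟨h2, h1⟩
  · have h1 : ContinuousWithinAt (fun r => J r (ω t)) (Ioi t) t := by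
      have h2 : ContinuousWithinAt (fun p : ℝ × E => J p.1 p.2) (Ici 0 ×ˢ univ) (t, ω t) :=
        hJ _ ⟨ht, mem_univ _⟩
      exact ContinuousWithinAt.comp (f := fun r => (r, ω t)) h2
        (continuousWithinAt_id.prodMk continuousWithinAt_const)
        (fun r hr => ⟨le_trans ht (le_of_lt hr), mem_univ _⟩)
    refine (h1.mul hcw).tendsto.congr' ?_
    filter_upwards [hev, (h t).1] with r h2 h3
    rw [h2.deriv, h3]; rfl

structure Ctx (J : ℝ → E → E →L[ℝ] E) (T : (ℝ → E) → ℝ → ℝ → E →L[ℝ] E) : Prop where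
  cJ : ContinuousOn (fun p : ℝ × E => J p.1 p.2) (Ici 0 ×ˢ univ)
  ev : ∀ ω, Step ω → IsEvol (fun t => J t (ω t)) (T ω)
  bd : ∀ ω, Step ω → ∃ K γ ε : ℝ, 0 < γ ∧
    ∀ t s : ℝ, 0 ≤ s → s ≤ t → ‖T ω t s‖ ≤ K * Real.exp (-γ * (t - s) + ε * s)

def Adm (ρ : ℝ → ℝ) (ω : ℝ → E) : Prop := Step ω ∧ ∀ t, ‖ω t‖ ≤ ρ t

variable {J : ℝ → E → E →L[ℝ] E} {T : (ℝ → E) → ℝ → ℝ → E →L[ℝ] E}

lemma Ctx.cont (c : Ctx J T) {ω : ℝ → E} (h : Step ω) {s a b : ℝ} (hs : 0 ≤ s) (ha : 0 ≤ a) :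
    ContinuousOn (fun t => T ω t s) (Icc a b) :=
  ((c.ev ω h).2.2 s hs).1.mono (fun _ hr => le_trans ha hr.1)

lemma Ctx.boundJ [FiniteDimensional ℝ E] (c : Ctx J T) (b R : ℝ) :
    ∃ M, 0 ≤ M ∧ ∀ r ∈ Icc 0 b, ∀ y : E, ‖y‖ ≤ R → ‖J r y‖ ≤ M := by
  haveI := FiniteDimensional.proper_real E
  have hK : IsCompact (Icc (0 : ℝ) b ×ˢ Metric.closedBall (0 : E) R) :=
    isCompact_Icc.prod (isCompact_closedBall _ _)
  obtain ⟨M, hM⟩ := hK.exists_bound_of_continuousOn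
    (c.cJ.mono (prod_mono Icc_subset_Ici_self (subset_univ _)))
  exact ⟨max M 0, le_max_right _ _, fun r hr y hy =>
    le_max_of_le_left (hM (r, y) ⟨hr, by simpa using hy⟩)⟩

lemma Ctx.apriori [FiniteDimensional ℝ E] (c : Ctx J T) {ρ : ℝ → ℝ} (hρ : Monotone ρ) (b : ℝ) :
    ∃ B, 1 ≤ B ∧ ∀ ω, Adm ρ ω → ∀ a r, 0 ≤ a → a ≤ r → r ≤ b → ‖T ω r a‖ ≤ B := by
  obtain ⟨M, hM0, hM⟩ := c.boundJ b (ρ b)
  refine ⟨max 1 (Real.exp (M * b)), le_max_left _ _, fun ω hω a r ha har hrb => ?_⟩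
  have := norm_le_gronwallBound_of_norm_deriv_right_le (f := fun t => T ω t a)
    (f' := fun t => J t (ω t) * T ω t a) (δ := 1) (K := M) (ε := 0) (a := a) (b := b)
    (c.cont hω.1 ha ha)
    (fun t ht => rderiv c.cJ hω.1 (c.ev ω hω.1) a ha t (le_trans ha ht.1))
    (by rw [(c.ev ω hω.1).1 a ha]; exact ContinuousLinearMap.norm_id_le)
    (fun t ht => by
      rw [add_zero]
      exact (norm_mul_le _ _).trans (mul_le_mul_of_nonneg_right
        (hM t ⟨le_trans ha ht.1, ht.2.le⟩ _ ((hω.2 t).trans (hρ ht.2.le))) (norm_nonneg _)))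
    r ⟨har, hrb⟩
  rw [gronwallBound_ε0, one_mul] at this
  refine le_max_of_le_right (this.trans (Real.exp_le_exp.2 ?_))
  exact mul_le_mul_of_nonneg_left (by linarith) hM0

lemma Ctx.loc [FiniteDimensional ℝ E] (c : Ctx J T) {ρ : ℝ → ℝ} (hρ : Monotone ρ) {ω ω' : ℝ → E}
    (hω : Adm ρ ω) (hω' : Step ω') {a b : ℝ} (ha : 0 ≤ a) (hab : a ≤ b)
    (he : ∀ r ∈ Ico a b, ω' r = ω r) : T ω b a = T ω' b a := by
  obtain ⟨M, hM0, hM⟩ := c.boundJ b (ρ b)
  have := norm_le_gronwallBound_of_norm_deriv_right_le (f := fun t => T ω t a - T ω' t a)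
    (f' := fun t => J t (ω t) * T ω t a - J t (ω' t) * T ω' t a) (δ := 0) (K := M) (ε := 0)
    (a := a) (b := b) ((c.cont hω.1 ha ha).sub (c.cont hω' ha ha))
    (fun t ht => (rderiv c.cJ hω.1 (c.ev ω hω.1) a ha t (le_trans ha ht.1)).sub
      (rderiv c.cJ hω' (c.ev ω' hω') a ha t (le_trans ha ht.1)))
    (by rw [(c.ev ω hω.1).1 a ha, (c.ev ω' hω').1 a ha]; simp)
    (fun t ht => by
      rw [add_zero, he t ht, ← mul_sub]
      exact (norm_mul_le _ _).trans (mul_le_mul_of_nonneg_right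
        (hM t ⟨le_trans ha ht.1, ht.2.le⟩ _ ((hω.2 t).trans (hρ ht.2.le))) (norm_nonneg _)))
    b ⟨hab, le_rfl⟩
  rw [gronwallBound_ε0_δ0] at this
  exact sub_eq_zero.1 (norm_le_zero_iff.1 this)

omit [NormedSpace ℝ E] in
lemma glue {ρ : ℝ → ℝ} (W : ℕ → ℝ → E) (hW : ∀ j, Adm ρ (W j)) (τ : ℕ → ℝ) (hτ : Monotone τ)
    (hu : ∀ t, ∃ j, t < τ (j + 1)) :
    ∃ ω, Adm ρ ω ∧ ∀ j, ∀ r ∈ Ico (τ j) (τ (j + 1)), W j r = ω r := by
  classical
  have key : ∀ r j, r < τ (j + 1) → (∀ i < j, τ (i + 1) ≤ r) → Nat.find (hu r) = j := by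
    intro r j h1 h2
    rw [Nat.find_eq_iff]
    exact ⟨h1, fun i hi => not_lt.2 (h2 i hi)⟩
  refine ⟨fun t => W (Nat.find (hu t)) t, ⟨fun t => ⟨?_, ?_⟩, fun t => (hW _).2 t⟩, ?_⟩
  · have h1 : t < τ (Nat.find (hu t) + 1) := Nat.find_spec (hu t)
    filter_upwards [((hW (Nat.find (hu t))).1 t).1, Ioo_mem_nhdsGT h1] with r hr hr'
    rw [key r (Nat.find (hu t)) hr'.2 (fun i hi =>
      (not_lt.1 (Nat.find_min (hu t) hi)).trans hr'.1.le), hr]
  · have hu' : ∃ j, t ≤ τ (j + 1) := (hu t).imp fun j hj => hj.le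
    obtain ⟨l, hl⟩ := ((hW (Nat.find hu')).1 t).2
    refine ⟨l, ?_⟩
    have h2 : ∀ᶠ r in 𝓝[<] t, ∀ i ∈ Finset.range (Nat.find hu'), τ (i + 1) ≤ r := by
      rw [Finset.eventually_all]
      intro i hi
      have : τ (i + 1) < t := not_le.1 (Nat.find_min hu' (Finset.mem_range.1 hi))
      filter_upwards [Ioo_mem_nhdsLT this] with r hr using hr.1.le
    filter_upwards [hl, h2, self_mem_nhdsWithin] with r hr hr' hr''
    rw [key r (Nat.find hu') (lt_of_lt_of_le hr'' (Nat.find_spec hu'))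
      (fun i hi => hr' i (Finset.mem_range.2 hi)), hr]
  · intro j r hr
    simp only
    rw [key r j hr.2 (fun i hi => (hτ (Nat.succ_le_of_lt hi)).trans hr.1)]

lemma Ctx.unif [FiniteDimensional ℝ E] (c : Ctx J T) {ρ : ℝ → ℝ} (hρ : Monotone ρ) (s : ℝ)
    (hs : 0 ≤ s) : ∃ K γ : ℝ, 0 < K ∧ 0 < γ ∧
      ∀ ω, Adm ρ ω → ∀ t, s ≤ t → ‖T ω t s‖ ≤ K * Real.exp (-γ * (t - s)) := by
  by_contra hn
  push Not at hn
  have key : ∀ j : ℕ, ∀ a : ℝ, ∃ ω : ℝ → E, ∃ b : ℝ, Adm ρ ω ∧ a + 1 ≤ b ∧ (s ≤ a →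
      ((j : ℝ) + 1) * Real.exp (-(1 / ((j : ℝ) + 1)) * (b - a) + ((j : ℝ) + 1) * a) <
        ‖T ω b a‖) := by
    intro j a
    by_cases hsa : s ≤ a
    · obtain ⟨B, hB1, hB⟩ := c.apriori hρ (a + 1)
      set g : ℝ := 1 / ((j : ℝ) + 1) with hg
      have hg0 : 0 < g := by positivity
      set D : ℝ := ((j : ℝ) + 1) * Real.exp (((j : ℝ) + 1) * a) with hD
      have hj1 : (1 : ℝ) ≤ (j : ℝ) + 1 := by have := Nat.cast_nonneg (α := ℝ) j; linarith
      have hD1 : 1 ≤ D := by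
        have : 1 ≤ Real.exp (((j : ℝ) + 1) * a) :=
          Real.one_le_exp (mul_nonneg (by linarith) (le_trans hs hsa))
        rw [hD]; nlinarith
      obtain ⟨ω, hω, b, hb, hlt⟩ := hn (B * D * Real.exp (g * (a + 1 - s))) g
        (by positivity) hg0
      have e1 : B * D * Real.exp (g * (a + 1 - s)) * Real.exp (-g * (b - s)) =
          B * D * Real.exp (g * (a + 1 - b)) := by
        rw [mul_assoc (B * D), ← Real.exp_add]; congr 2; ring
      rw [e1] at hlt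
      have hab : a + 1 ≤ b := by
        by_contra hh
        have h1 := hB ω hω s b hs hb (not_le.1 hh).le
        have h2 : 1 ≤ Real.exp (g * (a + 1 - b)) :=
          Real.one_le_exp (mul_nonneg hg0.le (by linarith [not_le.1 hh]))
        have h3 : 1 ≤ D * Real.exp (g * (a + 1 - b)) := by nlinarith
        have h4 : B * 1 ≤ B * (D * Real.exp (g * (a + 1 - b))) :=
          mul_le_mul_of_nonneg_left h3 (by linarith)
        rw [← mul_assoc] at h4
        linarith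
      refine ⟨ω, b, hω, hab, fun _ => ?_⟩
      have ha0 : 0 ≤ a := le_trans hs hsa
      have h1 := (c.ev ω hω.1).2.1 b a s (by linarith) ha0 hs
      have h2 : ‖T ω b s‖ ≤ ‖T ω b a‖ * B := by
        rw [← h1]
        exact (norm_mul_le _ _).trans (mul_le_mul_of_nonneg_left
          (hB ω hω s a hs hsa (by linarith)) (norm_nonneg _))
      have h3 : D * Real.exp (g * (a + 1 - b)) < ‖T ω b a‖ := by
        have : B * (D * Real.exp (g * (a + 1 - b))) < B * ‖T ω b a‖ := by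
          rw [← mul_assoc]; linarith
        exact lt_of_mul_lt_mul_left this (by linarith)
      refine lt_of_le_of_lt ?_ h3
      rw [hD, mul_assoc, ← Real.exp_add]
      refine mul_le_mul_of_nonneg_left (Real.exp_le_exp.2 ?_) (by linarith)
      nlinarith
    · obtain ⟨ω, hω, -⟩ := hn 1 1 one_pos one_pos
      exact ⟨ω, a + 1, hω, le_rfl, fun h => absurd h hsa⟩
  choose W b hW hb hlt using key
  let τ : ℕ → ℝ := fun n => Nat.rec s (fun j a => b j a) n
  have hτ : ∀ j, τ (j + 1) = b j (τ j) := fun j => rfl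
  have hτ1 : ∀ j : ℕ, s + j ≤ τ j := by
    intro j
    induction j with
    | zero => simp [τ]
    | succ j ih => rw [hτ]; have := hb j (τ j); push_cast; linarith
  have hmono : Monotone τ := monotone_nat_of_le_succ fun j => by
    rw [hτ]; have := hb j (τ j); linarith
  obtain ⟨ω, hω, he⟩ := glue (fun j => W j (τ j)) (fun j => hW j (τ j)) τ hmono (fun t => by
    obtain ⟨j, hj⟩ := exists_nat_gt t
    refine ⟨j, ?_⟩
    have := hτ1 (j + 1); push_cast at this; linarith)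
  obtain ⟨K, γ, ε, hγ, hK⟩ := c.bd ω hω.1
  obtain ⟨j, hj⟩ := exists_nat_gt (max K (max ε (1 / γ)))
  have hjK : K < j := lt_of_le_of_lt (le_max_left _ _) hj
  have hjε : ε < j := lt_of_le_of_lt ((le_max_left _ _).trans (le_max_right _ _)) hj
  have hjγ : 1 / γ < j := lt_of_le_of_lt ((le_max_right _ _).trans (le_max_right _ _)) hj
  have hj0 : (0 : ℝ) ≤ j := Nat.cast_nonneg j
  have hsa : s ≤ τ j := by have := hτ1 j; linarith
  have ha0 : 0 ≤ τ j := le_trans hs hsa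
  have hab : τ j ≤ τ (j + 1) := hmono (Nat.le_succ j)
  have h1 := hlt j (τ j) hsa
  rw [← hτ, ← c.loc hρ hω (hW j (τ j)).1 ha0 hab (he j)] at h1
  have h2 := hK _ _ ha0 hab
  have h3 : 1 / ((j : ℝ) + 1) ≤ γ := by
    rw [div_le_iff₀ (by linarith)]
    rw [div_lt_iff₀ hγ] at hjγ
    nlinarith
  have h4 : Real.exp (-γ * (τ (j + 1) - τ j) + ε * τ j) ≤
      Real.exp (-(1 / ((j : ℝ) + 1)) * (τ (j + 1) - τ j) + ((j : ℝ) + 1) * τ j) := by
    apply Real.exp_le_exp.2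
    have := mul_le_mul_of_nonneg_right h3 (sub_nonneg.2 hab)
    have := mul_le_mul_of_nonneg_right (show ε ≤ (j : ℝ) + 1 by linarith) ha0
    linarith
  have h5 := Real.exp_pos (-γ * (τ (j + 1) - τ j) + ε * τ j)
  nlinarith

omit [NormedSpace ℝ E] in
lemma cut {ρ : ℝ → ℝ} (hρ : Monotone ρ) (hρ0 : ∀ t, 0 ≤ ρ t) {ω : ℝ → E} (hω : Adm ρ ω) (a b : ℝ)
    (y : E) (hy : ‖y‖ ≤ ρ a) :
    Adm ρ (fun r => if r < b then (if r < a then 0 else y) else ω r) := by
  refine ⟨fun t => ⟨?_, ?_⟩, fun t => ?_⟩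
  · by_cases h1 : t < b
    · by_cases h2 : t < a
      · filter_upwards [Ioo_mem_nhdsGT h1, Ioo_mem_nhdsGT h2] with r hr hr'
        simp [h1, h2, hr.2, hr'.2]
      · filter_upwards [Ioo_mem_nhdsGT h1] with r hr
        have : ¬ r < a := by have := hr.1; intro h; apply h2; linarith
        simp [h1, h2, hr.2, this]
    · filter_upwards [(hω.1 t).1, self_mem_nhdsWithin] with r hr hr'
      have : ¬ r < b := by have : t < r := hr'; intro h; apply h1; linarith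
      simp [h1, this, hr]
  · by_cases h1 : t ≤ b
    · by_cases h2 : t ≤ a
      · refine ⟨0, ?_⟩
        filter_upwards [self_mem_nhdsWithin] with r hr
        have hr' : r < t := hr
        simp [show r < b by linarith, show r < a by linarith]
      · refine ⟨y, ?_⟩
        filter_upwards [Ioo_mem_nhdsLT (not_le.1 h2)] with r hr
        simp [show r < b by linarith [hr.2], show ¬ r < a by linarith [hr.1]]
    · obtain ⟨l, hl⟩ := (hω.1 t).2
      refine ⟨l, ?_⟩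
      filter_upwards [Ioo_mem_nhdsLT (not_le.1 h1), hl] with r hr hr'
      simp [show ¬ r < b by linarith [hr.1], hr']
  · simp only
    split_ifs with h1 h2
    · simpa using hρ0 t
    · exact hy.trans (hρ (not_lt.1 h2))
    · exact hω.2 t

lemma Ctx.relax [FiniteDimensional ℝ E] (c : Ctx J T) {ρ : ℝ → ℝ} (hρ : Monotone ρ)
    (hρ0 : ∀ t, 0 ≤ ρ t) {s τ : ℝ} (hs : 0 ≤ s) (hsτ : s ≤ τ) {x g : ℝ → E}
    (hx : ContinuousOn x (Icc s τ)) (hg : ContinuousOn g (Icc s τ))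
    (hd : ∀ r ∈ Ico s τ, HasDerivWithinAt x (g r) (Ici r) r)
    (hb : ∀ r ∈ Icc s τ, ‖x r‖ ≤ ρ r)
    (hm : ∀ r ∈ Icc s τ, ∀ p : E →L[ℝ] ℝ, ∃ y, ‖y‖ ≤ ‖x r‖ ∧ p (g r) = p (J r y (x r)))
    {C : ℝ} (hC : ∀ ω, Adm ρ ω → ‖T ω τ s‖ ≤ C) : ‖x τ‖ ≤ C * ‖x s‖ := by
  haveI := FiniteDimensional.proper_real E
  obtain ⟨q, hq1, hq⟩ := exists_dual_vector'' ℝ (x τ)
  obtain ⟨B, hB1, hB⟩ := c.apriori hρ τ
  obtain ⟨M, hM0, hM⟩ := c.boundJ τ (ρ τ)
  set X := ρ τ with hX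
  have hX0 : 0 ≤ X := hρ0 τ
  have hB0 : 0 ≤ B := by linarith
  set D := B * (1 + X + M * (M * (B * X))) with hD
  have hD0 : 0 ≤ D := by positivity
  have hug := Metric.uniformContinuousOn_iff.1
    ((isCompact_Icc (a := s) (b := τ)).uniformContinuousOn_of_continuous hg)
  have hK : IsCompact (Icc (0 : ℝ) τ ×ˢ Metric.closedBall (0 : E) X) :=
    isCompact_Icc.prod (isCompact_closedBall _ _)
  have huJ := Metric.uniformContinuousOn_iff.1 (hK.uniformContinuousOn_of_continuous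
    (c.cJ.mono (prod_mono Icc_subset_Ici_self (subset_univ _))))
  have h0 : Adm ρ (fun _ => (0 : E)) :=
    ⟨fun t => ⟨by simp, 0, by simp⟩, fun t => by simpa using hρ0 t⟩
  have main : ∀ ε, 0 < ε → ‖x τ‖ ≤ C * ‖x s‖ + ε * D * (τ - s) := by
    intro ε hε
    obtain ⟨δ1, hδ1, H1⟩ := hug ε hε
    obtain ⟨δ2, hδ2, H2⟩ := huJ ε hε
    set h := min ε (min δ1 δ2) with hh
    have hh0 : 0 < h := by positivity
    have loc : ∀ a b, s ≤ a → a ≤ b → b ≤ τ → b - a ≤ h → ∀ ω, Adm ρ ω → ∃ ω', Adm ρ ω' ∧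
        q (T ω τ b (x b)) ≤ q (T ω' τ a (x a)) + ε * D * (b - a) := by
      intro a b hsa hab hbτ hba ω hω
      have ha0 : 0 ≤ a := le_trans hs hsa
      have hb0 : 0 ≤ b := le_trans ha0 hab
      have haI : a ∈ Icc s τ := ⟨hsa, hab.trans hbτ⟩
      set p : E →L[ℝ] ℝ := q.comp (T ω τ b) with hp
      have hpB : ‖p‖ ≤ B := by
        refine (ContinuousLinearMap.opNorm_comp_le _ _).trans ?_
        have := hB ω hω b τ hb0 hbτ le_rfl
        nlinarith [norm_nonneg q, norm_nonneg (T ω τ b)]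
      obtain ⟨y, hy, hpy⟩ := hm a haI p
      have hya : ‖y‖ ≤ ρ a := hy.trans (hb a haI)
      have hyX : ‖y‖ ≤ X := hya.trans (hρ haI.2)
      have hxX : ‖x a‖ ≤ X := (hb a haI).trans (hρ haI.2)
      have hω' := cut hρ hρ0 hω a b y hya
      set ω' : ℝ → E := fun r => if r < b then (if r < a then 0 else y) else ω r with hω'def
      refine ⟨ω', hω', ?_⟩
      have e1 : T ω τ b = T ω' τ b := c.loc hρ hω hω'.1 hb0 hbτ (fun r hr => by
        simp [hω'def, not_lt.2 hr.1])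
      have e2 : q (T ω' τ a (x a)) = p (T ω' b a (x a)) := by
        rw [← (c.ev ω' hω'.1).2.1 τ b a (le_trans hs hsτ) hb0 ha0, hp, e1]; rfl
      set z : ℝ → E := fun r => T ω' r a (x a) with hz
      have hzc : ContinuousOn z (Icc a b) :=
        (c.cont hω'.1 ha0 ha0).clm_apply continuousOn_const
      have hzd : ∀ r ∈ Ico a b, HasDerivWithinAt z (J r y (z r)) (Ici r) r := by
        intro r hr
        have h1 := rderiv c.cJ hω'.1 (c.ev ω' hω'.1) a ha0 r (le_trans ha0 hr.1)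
        have h2 : ω' r = y := by simp [hω'def, hr.2, not_lt.2 hr.1]
        rw [h2] at h1
        have h3 := h1.clm_apply (hasDerivWithinAt_const r (Ici r) (x a))
        simpa using h3
      have hza : z a = x a := by simp [hz, (c.ev ω' hω'.1).1 a ha0]
      have hzb : ∀ r ∈ Ico a b, ‖z r‖ ≤ B * X := by
        intro r hr
        refine (ContinuousLinearMap.le_opNorm _ _).trans ?_
        exact mul_le_mul (hB ω' hω' a r ha0 hr.1 (hr.2.le.trans hbτ)) hxX (norm_nonneg _) hB0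
      have hJM : ∀ r ∈ Ico a b, ‖J r y‖ ≤ M := fun r hr =>
        hM r ⟨le_trans ha0 hr.1, hr.2.le.trans hbτ⟩ y hyX
      have hzl := norm_image_sub_le_of_norm_deriv_right_le_segment (C := M * (B * X)) hzc hzd
        (fun r hr => (ContinuousLinearMap.le_opNorm _ _).trans
          (mul_le_mul (hJM r hr) (hzb r hr) (norm_nonneg _) hM0))
      have hsub : Icc a b ⊆ Icc s τ := Icc_subset_Icc hsa hbτ
      have hφ := norm_image_sub_le_of_norm_deriv_right_le_segment (C := ε * D)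
        (f := fun r => p (x r - z r)) (f' := fun r => p (g r - J r y (z r))) (a := a) (b := b)
        (p.continuous.comp_continuousOn ((hx.mono hsub).sub hzc))
        (fun r hr => p.hasFDerivAt.comp_hasDerivWithinAt r
          ((hd r ⟨le_trans hsa hr.1, lt_of_lt_of_le hr.2 hbτ⟩).sub (hzd r hr)))
        (fun r hr => by
          have hra : r - a < h := by linarith [hr.2]
          have hra0 : 0 ≤ r - a := by linarith [hr.1]
          have hrI : r ∈ Icc s τ := hsub ⟨hr.1, hr.2.le⟩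
          have hdist : dist r a < h := by rw [Real.dist_eq, abs_of_nonneg hra0]; exact hra
          have k1 : ‖g r - g a‖ ≤ ε := by
            rw [← dist_eq_norm]
            exact (H1 r hrI a haI (lt_of_lt_of_le hdist
              ((min_le_right _ _).trans (min_le_left _ _)))).le
          have k2 : ‖J a y - J r y‖ ≤ ε := by
            rw [← dist_eq_norm, dist_comm]
            refine (H2 (r, y) ⟨⟨le_trans hs hrI.1, hrI.2⟩, by simpa using hyX⟩ (a, y)
              ⟨⟨ha0, haI.2⟩, by simpa using hyX⟩ ?_).le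
            rw [Prod.dist_eq, dist_self, max_eq_left dist_nonneg]
            exact lt_of_lt_of_le hdist ((min_le_right _ _).trans (min_le_right _ _))
          have k3 : ‖x a - z r‖ ≤ M * (B * X) * ε := by
            rw [← hza, norm_sub_rev]
            refine (hzl r ⟨hr.1, hr.2.le⟩).trans (mul_le_mul_of_nonneg_left ?_ (by positivity))
            exact hra.le.trans (min_le_left _ _)
          have e : p (g r - J r y (z r)) =
              p ((g r - g a) + (J a y - J r y) (x a) + J r y (x a - z r)) := by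
            simp only [map_sub, map_add, sub_apply]
            linarith
          rw [e]
          refine (ContinuousLinearMap.le_opNorm _ _).trans ?_
          have k4 : ‖(J a y - J r y) (x a)‖ ≤ ε * X := (ContinuousLinearMap.le_opNorm _ _).trans
            (mul_le_mul k2 hxX (norm_nonneg _) hε.le)
          have k5 : ‖J r y (x a - z r)‖ ≤ M * (M * (B * X) * ε) :=
            (ContinuousLinearMap.le_opNorm _ _).trans
              (mul_le_mul (hJM r hr) k3 (norm_nonneg _) hM0)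
          have k6 : ‖(g r - g a) + (J a y - J r y) (x a) + J r y (x a - z r)‖ ≤
              ε + ε * X + M * (M * (B * X) * ε) :=
            (norm_add₃_le).trans (by linarith)
          calc _ ≤ B * (ε + ε * X + M * (M * (B * X) * ε)) :=
                mul_le_mul hpB k6 (norm_nonneg _) hB0
            _ = ε * D := by rw [hD]; ring)
        b ⟨hab, le_rfl⟩
      simp only [hza, sub_self, map_zero, sub_zero, map_sub, Real.norm_eq_abs] at hφ
      have := (abs_le.1 hφ).2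
      rw [e2]
      have e3 : q (T ω τ b (x b)) = p (x b) := rfl
      rw [e3]
      simp only [hz] at this
      linarith
    have ind : ∀ N : ℕ, ∀ a, s ≤ a → a ≤ τ → τ - a ≤ N * h → ∃ ω, Adm ρ ω ∧
        ‖x τ‖ ≤ q (T ω τ a (x a)) + ε * D * (τ - a) := by
      intro N
      induction N with
      | zero =>
        intro a h1 h2 h3
        have : a = τ := by simp at h3; linarith
        subst this
        refine ⟨_, h0, ?_⟩
        rw [(c.ev _ h0.1).1 a (le_trans hs h1)]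
        simp [hq]
      | succ N ih =>
        intro a h1 h2 h3
        obtain ⟨ω, hω, k⟩ := ih (min τ (a + h)) (le_min hsτ (by linarith)) (min_le_left _ _) (by
          push_cast at h3
          rcases le_total τ (a + h) with e | e
          · rw [min_eq_left e, sub_self]; positivity
          · rw [min_eq_right e]; linarith)
        obtain ⟨ω', hω', k'⟩ := loc a (min τ (a + h)) h1 (le_min h2 (by linarith))
          (min_le_left _ _) (by have := min_le_right τ (a + h); linarith) ω hω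
        exact ⟨ω', hω', by linarith⟩
    obtain ⟨N, hN⟩ := exists_nat_ge ((τ - s) / h)
    obtain ⟨ω, hω, k⟩ := ind N s le_rfl hsτ (by rwa [div_le_iff₀ hh0] at hN)
    have k1 : q (T ω τ s (x s)) ≤ C * ‖x s‖ := by
      refine (le_abs_self _).trans ((q.le_opNorm _).trans ?_)
      have k2 := (T ω τ s).le_opNorm (x s)
      have k3 := mul_le_mul_of_nonneg_right (hC ω hω) (norm_nonneg (x s))
      nlinarith [norm_nonneg (T ω τ s (x s)), norm_nonneg q]
    linarith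
  refine le_of_forall_pos_le_add fun e he => ?_
  have hpos : 0 < D * (τ - s) + 1 := by have := mul_nonneg hD0 (sub_nonneg.2 hsτ); linarith
  have k := main (e / (D * (τ - s) + 1)) (by positivity)
  have : e / (D * (τ - s) + 1) * D * (τ - s) ≤ e := by
    rw [mul_assoc, div_mul_eq_mul_div, div_le_iff₀ hpos]; nlinarith
  linarith

lemma Ctx.sol [FiniteDimensional ℝ E] {f : ℝ → E → E}
    (c : Ctx (fun t y => fderiv ℝ (f t) y) T) (h1 : G1 f) (h2 : ∀ t : ℝ, 0 ≤ t → f t 0 = 0)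
    {ρ : ℝ → ℝ} (hρ : Monotone ρ) (hρ0 : ∀ t, 0 ≤ ρ t) {s τ : ℝ} (hs : 0 ≤ s) (hsτ : s ≤ τ)
    {x : ℝ → E} (hx : IsSol f s x) (hb : ∀ r ∈ Icc s τ, ‖x r‖ ≤ ρ r)
    {C : ℝ} (hC : ∀ ω, Adm ρ ω → ‖T ω τ s‖ ≤ C) : ‖x τ‖ ≤ C * ‖x s‖ := by
  have hxc : ContinuousOn x (Icc s τ) := fun r hr =>
    (hx r hr.1).continuousWithinAt.mono Icc_subset_Ici_self
  refine c.relax hρ hρ0 hs hsτ (g := fun r => f r (x r)) hxc ?_
    (fun r hr => (hx r hr.1).mono (Ici_subset_Ici.2 hr.1)) hb ?_ hC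
  · exact h1.1.comp (f := fun r => (r, x r)) (continuousOn_id.prodMk hxc)
      (fun r hr => ⟨le_trans hs hr.1, mem_univ _⟩)
  · intro r hr p
    have hr0 : 0 ≤ r := le_trans hs hr.1
    have hd : ∀ θ : ℝ, HasDerivAt (fun θ : ℝ => p (f r (θ • x r)))
        (p (fderiv ℝ (f r) (θ • x r) (x r))) θ := by
      intro θ
      have k1 : HasDerivAt (fun θ : ℝ => θ • x r) (x r) θ := by
        simpa using (hasDerivAt_id θ).smul_const (x r)
      exact p.hasFDerivAt.comp_hasDerivAt θ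
        ((h1.2.1 r hr0 (θ • x r)).hasFDerivAt.comp_hasDerivAt θ k1)
    obtain ⟨θ, hθ, e⟩ := exists_hasDerivAt_eq_slope (fun θ : ℝ => p (f r (θ • x r))) _
      (zero_lt_one' ℝ) (fun θ _ => (hd θ).continuousAt.continuousWithinAt) (fun θ _ => hd θ)
    refine ⟨θ • x r, ?_, ?_⟩
    · rw [norm_smul, Real.norm_eq_abs, abs_of_pos hθ.1]
      nlinarith [norm_nonneg (x r), hθ.2]
    · rw [e]; simp [h2 r hr0]

theorem result (E : Type) [NormedAddCommGroup E] [NormedSpace ℝ E] [FiniteDimensional ℝ E]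
    (f : ℝ → E → E) (h1 : G1 f) (h2 : ∀ t : ℝ, 0 ≤ t → f t 0 = 0) (h3 : G3 f) : GNUAS f := by
  have H : ∀ ω : ℝ → E, ∃ T : ℝ → ℝ → E →L[ℝ] E, Step ω →
      IsEvol (fun t => fderiv ℝ (f t) (ω t)) T ∧ ∃ K γ ε : ℝ, 0 < γ ∧
        ∀ t s : ℝ, 0 ≤ s → s ≤ t → ‖T t s‖ ≤ K * Real.exp (-γ * (t - s) + ε * s) := by
    intro ω
    by_cases h : Step ω
    · obtain ⟨T, hT, K, γ, ε, _, k2, k3, k4⟩ := h3 ω h.pc
      exact ⟨T, fun _ => ⟨hT, K, γ, ε, by linarith, k4⟩⟩
    · exact ⟨0, fun h' => absurd h' h⟩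
  choose T hT using H
  have c : Ctx (fun t y => fderiv ℝ (f t) y) T :=
    ⟨h1.2.2.1, fun ω h => (hT ω h).1, fun ω h => (hT ω h).2⟩
  intro s hs
  constructor
  · intro η hη
    obtain ⟨K, γ, hK, hγ, hb⟩ := c.unif (ρ := fun _ => η) monotone_const s hs
    refine ⟨η / (K + 1), by positivity, fun x hx hx0 t ht => ?_⟩
    by_contra hn
    have hxc : ContinuousOn (fun r => ‖x r‖) (Ici s) := fun r hr =>
      (hx r hr).continuousWithinAt.norm
    have hcl : IsClosed (Ici s ∩ (fun r => ‖x r‖) ⁻¹' Ici η) :=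
      hxc.preimage_isClosed_of_isClosed isClosed_Ici isClosed_Ici
    have hne : (Ici s ∩ (fun r => ‖x r‖) ⁻¹' Ici η).Nonempty := ⟨t, ht, not_lt.1 hn⟩
    have hbd : BddBelow (Ici s ∩ (fun r => ‖x r‖) ⁻¹' Ici η) := ⟨s, fun r hr => hr.1⟩
    obtain ⟨k1, k2⟩ := hcl.csInf_mem hne hbd
    set τ := sInf (Ici s ∩ (fun r => ‖x r‖) ⁻¹' Ici η) with hτ
    have k2' : η ≤ ‖x τ‖ := k2
    have hlt : η / (K + 1) ≤ η := div_le_self hη.le (by linarith)
    obtain ⟨u, hu, hu'⟩ := intermediate_value_Icc (show s ≤ τ from k1)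
      (hxc.mono Icc_subset_Ici_self) (show η ∈ Icc ‖x s‖ ‖x τ‖ from ⟨by linarith, k2'⟩)
    have huτ : u = τ := le_antisymm hu.2 (csInf_le hbd ⟨hu.1, le_of_eq hu'.symm⟩)
    have k3 := c.sol h1 h2 (ρ := fun _ => η) monotone_const (fun _ => hη.le) hs k1 hx
      (fun r hr => by
        rcases eq_or_lt_of_le hr.2 with e | e
        · rw [e, ← huτ]; exact le_of_eq hu'
        · by_contra hh
          exact absurd (csInf_le hbd ⟨hr.1, (not_le.1 hh).le⟩) (not_le.2 e))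
      (C := K) (fun ω hω => (hb ω hω τ k1).trans (mul_le_of_le_one_right hK.le
        (Real.exp_le_one_iff.2 (by nlinarith [sub_nonneg.2 (show s ≤ τ from k1)]))))
    rw [lt_div_iff₀ (by linarith)] at hx0
    nlinarith [norm_nonneg (x s)]
  · intro x hx
    have hxc : ContinuousOn (fun r => ‖x r‖) (Ici s) := fun r hr =>
      (hx r hr).continuousWithinAt.norm
    have hbd : ∀ t, BddAbove ((fun r => ‖x r‖) '' Icc s (max s t)) := fun t =>
      isCompact_Icc.bddAbove_image (hxc.mono Icc_subset_Ici_self)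
    set ρ : ℝ → ℝ := fun t => sSup ((fun r => ‖x r‖) '' Icc s (max s t)) with hρdef
    have hle : ∀ t, ∀ r ∈ Icc s (max s t), ‖x r‖ ≤ ρ t := fun t r hr =>
      le_csSup (hbd t) ⟨r, hr, rfl⟩
    have hρ : Monotone ρ := fun a b hab =>
      csSup_le_csSup (hbd b) ⟨_, s, ⟨le_rfl, le_max_left _ _⟩, rfl⟩
        (image_mono (Icc_subset_Icc le_rfl (max_le_max le_rfl hab)))
    have hρ0 : ∀ t, 0 ≤ ρ t := fun t =>
      (norm_nonneg _).trans (hle t s ⟨le_rfl, le_max_left _ _⟩)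
    obtain ⟨K, γ, hK, hγ, hb⟩ := c.unif hρ s hs
    rw [tendsto_zero_iff_norm_tendsto_zero]
    have hlim : Tendsto (fun t => K * Real.exp (-γ * (t - s)) * ‖x s‖) atTop (𝓝 0) := by
      have k1 : Tendsto (fun t => -γ * (t - s)) atTop atBot :=
        (tendsto_atTop_add_const_right atTop (-s) tendsto_id).const_mul_atTop_of_neg
          (by linarith)
      simpa using ((Real.tendsto_exp_atBot.comp k1).const_mul K).mul_const ‖x s‖
    refine squeeze_zero' (Eventually.of_forall fun _ => norm_nonneg _) ?_ hlim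
    filter_upwards [eventually_ge_atTop s] with t ht
    exact c.sol h1 h2 hρ hρ0 hs ht hx (fun r hr => hle r r ⟨hr.1, le_max_right _ _⟩)
      (fun ω hω => hb ω hω t ht)

end Pool.Agent.Results.MP_1775bc_an.MarkusYamabe
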